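import Mathlib

/-!
# Binary forms, dehomogenisation, restriction to lines
-/

set_option autoImplicit false

open MvPolynomial

namespace Pool.Agent.SecFill

/-- Restriction of a form on projective `N`-space to the line through `p` and `v`: the form
`F (s p + t v)` in the two variables `s = X 0` and `t = X 1`. -/
noncomputable def onLine {N : ℕ} (p v : Fin (N + 1) → ℂ) :
    MvPolynomial (Fin (N + 1)) ℂ →ₐ[ℂ] MvPolynomial (Fin 2) ℂ :=
  aeval (fun j => C (p j) * X 0 + C (v j) * X 1)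

lemma onLine_eval {N : ℕ} (p v : Fin (N + 1) → ℂ) (F : MvPolynomial (Fin (N + 1)) ℂ)
    (x : Fin 2 → ℂ) : eval x (onLine p v F) = eval (fun j => x 0 * p j + x 1 * v j) F := by
  have h : ((aeval x : MvPolynomial (Fin 2) ℂ →ₐ[ℂ] ℂ).comp (onLine p v)) =
      (aeval (fun j => x 0 * p j + x 1 * v j) : MvPolynomial (Fin (N + 1)) ℂ →ₐ[ℂ] ℂ) := by
    apply MvPolynomial.algHom_ext
    intro j
    simp only [onLine, AlgHom.comp_apply, aeval_X, map_add, map_mul]
    rw [← MvPolynomial.algebraMap_eq, AlgHom.commutes, AlgHom.commutes]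
    simp [mul_comm]
  have := DFunLike.congr_fun h F
  simpa [AlgHom.comp_apply, coe_aeval_eq_eval] using this

lemma onLine_hom {N : ℕ} (p v : Fin (N + 1) → ℂ) {F : MvPolynomial (Fin (N + 1)) ℂ} {d : ℕ}
    (hF : F.IsHomogeneous d) : (onLine p v F).IsHomogeneous d := by
  have h := hF.aeval (fun j => C (p j) * X 0 + C (v j) * X 1 : Fin (N + 1) → MvPolynomial (Fin 2) ℂ)
    (n := 1) (fun j => (isHomogeneous_C_mul_X _ _).add (isHomogeneous_C_mul_X _ _))
  simpa [onLine] using h

/-- values of a homogeneous polynomial at a multiple of a point -/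
lemma eval_smul_hom {σ : Type} {G : MvPolynomial σ ℂ} {d : ℕ} (hG : G.IsHomogeneous d)
    (c : ℂ) (x : σ → ℂ) : eval (fun j => c * x j) G = c ^ d * eval x G := by
  rw [eval_eq, eval_eq, Finset.mul_sum]
  refine Finset.sum_congr rfl fun m hm => ?_
  have hdeg : m.degree = d := hG.coeff_eq_zero.mt (by simpa using (mem_support_iff.1 hm)) |> fun h => by
    by_contra hne
    exact (mem_support_iff.1 hm) (hG.coeff_eq_zero hne)
  have : ∏ i ∈ m.support, (c * x i) ^ m i = c ^ d * ∏ i ∈ m.support, x i ^ m i := by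
    simp only [mul_pow]
    rw [Finset.prod_mul_distrib, Finset.prod_pow_eq_pow_sum, ← hdeg, Finsupp.degree]
    rfl
  rw [this]; ring

/-- Setting `t = 1`. -/
noncomputable def dehom : MvPolynomial (Fin 2) ℂ →ₐ[ℂ] Polynomial ℂ :=
  aeval ![Polynomial.X, 1]

lemma dehom_eval (G : MvPolynomial (Fin 2) ℂ) (s : ℂ) :
    (dehom G).eval s = eval ![s, 1] G := by
  have h : ((Polynomial.aeval s : Polynomial ℂ →ₐ[ℂ] ℂ).comp dehom) =
      (aeval ![s, 1] : MvPolynomial (Fin 2) ℂ →ₐ[ℂ] ℂ) := by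
    apply MvPolynomial.algHom_ext
    intro j
    fin_cases j <;> simp [dehom]
  have := DFunLike.congr_fun h G
  simpa [AlgHom.comp_apply, coe_aeval_eq_eval, Polynomial.coe_aeval_eq_eval] using this

lemma natDegree_dehom {G : MvPolynomial (Fin 2) ℂ} {d : ℕ} (hG : G.IsHomogeneous d) :
    (dehom G).natDegree ≤ d := by
  rw [dehom, aeval_def, eval₂_eq']
  refine Polynomial.natDegree_sum_le_of_forall_le _ _ fun m hm => ?_
  have hdeg : m.degree = d := by
    by_contra hne
    exact (mem_support_iff.1 hm) (hG.coeff_eq_zero hne)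
  have h0 : m 0 ≤ d := by
    rw [← hdeg]; exact Finsupp.le_degree 0 m
  simp only [Fin.prod_univ_two, Matrix.cons_val_zero, Matrix.cons_val_one, one_pow, mul_one]
  refine (Polynomial.natDegree_mul_le).trans ?_
  rw [Polynomial.algebraMap_eq, Polynomial.natDegree_C, zero_add]
  refine (Polynomial.natDegree_pow_le).trans ?_
  simpa using h0

/-- Homogenisation of a univariate polynomial to a binary form of degree `n`. -/
noncomputable def hm (n : ℕ) (P : Polynomial ℂ) : MvPolynomial (Fin 2) ℂ :=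
  ∑ j ∈ Finset.range (n + 1), C (P.coeff j) * X 0 ^ j * X 1 ^ (n - j)

lemma hm_hom (n : ℕ) (P : Polynomial ℂ) : (hm n P).IsHomogeneous n := by
  refine IsHomogeneous.sum _ _ _ fun j hj => ?_
  have hj' : j ≤ n := Nat.lt_succ_iff.1 (Finset.mem_range.1 hj)
  have h1 : (C (P.coeff j) * X 0 ^ j : MvPolynomial (Fin 2) ℂ).IsHomogeneous j :=
    isHomogeneous_C_mul_X_pow _ _ _
  have h2 := h1.mul (isHomogeneous_X_pow (R := ℂ) (1 : Fin 2) (n - j))
  rwa [Nat.add_sub_cancel' hj'] at h2

lemma hm_eval {n : ℕ} {P : Polynomial ℂ} (hP : P.natDegree ≤ n) (x : Fin 2 → ℂ) (hx : x 1 ≠ 0) :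
    eval x (hm n P) = x 1 ^ n * P.eval (x 0 / x 1) := by
  rw [hm, map_sum, Polynomial.eval_eq_sum_range' (Nat.lt_succ_of_le hP), Finset.mul_sum]
  refine Finset.sum_congr rfl fun j hj => ?_
  have hj' : j ≤ n := Nat.lt_succ_iff.1 (Finset.mem_range.1 hj)
  simp only [map_mul, map_pow, eval_C, eval_X]
  have : x 1 ^ n = x 1 ^ j * x 1 ^ (n - j) := by rw [← pow_add, Nat.add_sub_cancel' hj']
  rw [this, div_pow]
  field_simp

/-- Two binary polynomials that agree whenever `t ≠ 0` are equal. -/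
lemma eq_of_eval {A B : MvPolynomial (Fin 2) ℂ}
    (h : ∀ x : Fin 2 → ℂ, x 1 ≠ 0 → eval x A = eval x B) : A = B := by
  have h1 : (X 1 : MvPolynomial (Fin 2) ℂ) * A = X 1 * B := by
    apply MvPolynomial.funext
    intro x
    by_cases hx : x 1 = 0
    · simp [hx]
    · simp [h x hx]
  exact mul_left_cancel₀ (X_ne_zero _) h1

lemma hm_mul {a b : ℕ} {P Q : Polynomial ℂ} (hP : P.natDegree ≤ a) (hQ : Q.natDegree ≤ b) :
    hm (a + b) (P * Q) = hm a P * hm b Q := by
  apply eq_of_eval
  intro x hx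
  rw [hm_eval ((Polynomial.natDegree_mul_le).trans (add_le_add hP hQ)) x hx, map_mul,
    hm_eval hP x hx, hm_eval hQ x hx, Polynomial.eval_mul]
  ring

lemma hm_dehom {G : MvPolynomial (Fin 2) ℂ} {d : ℕ} (hG : G.IsHomogeneous d) :
    hm d (dehom G) = G := by
  apply eq_of_eval
  intro x hx
  rw [hm_eval (natDegree_dehom hG) x hx, dehom_eval, ← eval_smul_hom hG]
  congr 2
  funext j
  fin_cases j
  · simp; field_simp
  · simp

lemma hm_ne_zero {k : ℕ} {H : Polynomial ℂ} (hH : H.Monic) (hk : H.natDegree = k) :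
    hm k H ≠ 0 := by
  intro h
  have h1 : ∀ s : ℂ, H.eval s = 0 := by
    intro s
    have h2 := hm_eval (le_of_eq hk) ![s, 1] (by simp)
    rw [h, map_zero] at h2
    simpa using h2.symm
  exact hH.ne_zero (Polynomial.funext (fun s => by simpa using h1 s))

/-- If a monic polynomial divides the dehomogenisation, its homogenisation divides the form. -/
lemma hm_dvd {G : MvPolynomial (Fin 2) ℂ} {d k : ℕ} (hG : G.IsHomogeneous d)
    {H : Polynomial ℂ} (hH : H.Monic) (hk : H.natDegree = k) (hkd : k ≤ d)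
    (hdvd : H ∣ dehom G) : hm k H ∣ G := by
  obtain ⟨Q, hQ⟩ := hdvd
  have hQd : Q.natDegree ≤ d - k := by
    by_cases hQ0 : Q = 0
    · simp [hQ0]
    · have h1 := natDegree_dehom hG
      rw [hQ, hH.natDegree_mul' hQ0, hk] at h1
      omega
  refine ⟨hm (d - k) Q, ?_⟩
  rw [← hm_mul (le_of_eq hk) hQd, Nat.add_sub_cancel' hkd, ← hQ, hm_dehom hG]

lemma dehom_onLine {N : ℕ} (p v : Fin (N + 1) → ℂ) (F : MvPolynomial (Fin (N + 1)) ℂ) :
    dehom (onLine p v F) =
      aeval (fun j => Polynomial.C (p j) * Polynomial.X + Polynomial.C (v j)) F := by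
  have h : dehom.comp (onLine p v) =
      (aeval (fun j => Polynomial.C (p j) * Polynomial.X + Polynomial.C (v j)) :
        MvPolynomial (Fin (N + 1)) ℂ →ₐ[ℂ] Polynomial ℂ) := by
    apply MvPolynomial.algHom_ext
    intro j
    simp only [onLine, AlgHom.comp_apply, aeval_X, map_add, map_mul]
    rw [← MvPolynomial.algebraMap_eq, AlgHom.commutes, AlgHom.commutes]
    simp [dehom, Polynomial.algebraMap_eq]
  have := DFunLike.congr_fun h F
  simpa [AlgHom.comp_apply] using this

end Pool.Agent.SecFill
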