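import Pool.Agent.SecFill.Off

/-!
# Multisecant lines through every point, by compactness
-/

set_option autoImplicit false

open MvPolynomial

namespace Pool.Agent.SecFill

/-- The binary form of degree `e` with coefficients `a`, as a function. -/
noncomputable def form (e : ℕ) (a : Fin (e + 1) → ℂ) (s t : ℂ) : ℂ :=
  ∑ j : Fin (e + 1), a j * s ^ (j : ℕ) * t ^ (e - (j : ℕ))

/-- The binary form of degree `e` with coefficients `a`, as a polynomial. -/
noncomputable def formP (e : ℕ) (a : Fin (e + 1) → ℂ) : MvPolynomial (Fin 2) ℂ :=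
  ∑ j : Fin (e + 1), C (a j) * X 0 ^ (j : ℕ) * X 1 ^ (e - (j : ℕ))

/-- The univariate polynomial with coefficients `a`. -/
noncomputable def poly (e : ℕ) (a : Fin (e + 1) → ℂ) : Polynomial ℂ :=
  ∑ j : Fin (e + 1), Polynomial.C (a j) * Polynomial.X ^ (j : ℕ)

lemma formP_eval (e : ℕ) (a : Fin (e + 1) → ℂ) (x : Fin 2 → ℂ) :
    eval x (formP e a) = form e a (x 0) (x 1) := by
  simp [formP, form]

lemma formP_hom (e : ℕ) (a : Fin (e + 1) → ℂ) : (formP e a).IsHomogeneous e := by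
  refine IsHomogeneous.sum _ _ _ fun j _ => ?_
  have hj' : (j : ℕ) ≤ e := Nat.lt_succ_iff.1 j.2
  have h1 : (C (a j) * X 0 ^ (j : ℕ) : MvPolynomial (Fin 2) ℂ).IsHomogeneous j :=
    isHomogeneous_C_mul_X_pow _ _ _
  have h2 := h1.mul (isHomogeneous_X_pow (R := ℂ) (1 : Fin 2) (e - (j : ℕ)))
  rwa [Nat.add_sub_cancel' hj'] at h2

lemma poly_eval (e : ℕ) (a : Fin (e + 1) → ℂ) (s : ℂ) :
    (poly e a).eval s = form e a s 1 := by
  simp [poly, form, Polynomial.eval_finsetSum]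

lemma poly_natDegree (e : ℕ) (a : Fin (e + 1) → ℂ) : (poly e a).natDegree ≤ e := by
  refine Polynomial.natDegree_sum_le_of_forall_le _ _ fun j _ => ?_
  refine (Polynomial.natDegree_C_mul_X_pow_le _ _).trans ?_
  exact Nat.lt_succ_iff.1 j.2

lemma poly_coeff (e : ℕ) (a : Fin (e + 1) → ℂ) (j : Fin (e + 1)) : (poly e a).coeff j = a j := by
  classical
  rw [poly, Polynomial.finsetSum_coeff]
  simp only [Polynomial.coeff_C_mul, Polynomial.coeff_X_pow]
  rw [Finset.sum_eq_single j]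
  · simp
  · intro b _ hb
    rw [if_neg, mul_zero]
    intro h
    exact hb (Fin.ext h.symm)
  · simp

lemma poly_ne_zero {e : ℕ} {a : Fin (e + 1) → ℂ} (ha : a ≠ 0) : poly e a ≠ 0 := by
  intro h
  apply ha
  funext j
  rw [← poly_coeff e a j, h]
  simp

lemma formP_ne_zero {e : ℕ} {a : Fin (e + 1) → ℂ} (ha : a ≠ 0) : formP e a ≠ 0 := by
  intro h
  apply poly_ne_zero ha
  apply Polynomial.funext
  intro s
  have h1 := formP_eval e a ![s, 1]
  rw [h, map_zero] at h1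
  rw [poly_eval, Polynomial.eval_zero]
  simpa using h1.symm

/-- A univariate polynomial of degree at most `e`, homogenised, as a form. -/
lemma form_of_poly {e : ℕ} {P : Polynomial ℂ} (x : Fin 2 → ℂ) :
    form e (fun j => P.coeff j) (x 0) (x 1) = eval x (hm e P) := by
  rw [hm, map_sum, form, Finset.sum_range]
  simp

lemma form_smul (e : ℕ) (c : ℂ) (a : Fin (e + 1) → ℂ) (s t : ℂ) :
    form e (c • a) s t = c * form e a s t := by
  simp only [form, Finset.mul_sum, Pi.smul_apply, smul_eq_mul]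
  exact Finset.sum_congr rfl fun j _ => by ring

lemma form_scale (e : ℕ) (c : ℂ) (a : Fin (e + 1) → ℂ) (s t : ℂ) :
    form e (fun j => a j * c ^ (e - (j : ℕ))) s t = form e a s (t * c) := by
  simp only [form]
  refine Finset.sum_congr rfl fun j _ => ?_
  rw [mul_pow]; ring

lemma form_continuous (e : ℕ) (s t : ℂ) : Continuous (fun a : Fin (e + 1) → ℂ => form e a s t) := by
  unfold form
  fun_prop

/-- There is a form of degree `k` dividing the restriction to the line through `p` and `v`. -/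
def Good {N m : ℕ} (k : ℕ) (d : Fin m → ℕ) (f : Fin m → MvPolynomial (Fin (N + 1)) ℂ)
    (p v : Fin (N + 1) → ℂ) (a : Fin (k + 1) → ℂ) (b : ∀ i, Fin (d i - k + 1) → ℂ) : Prop :=
  ∀ i s t, form k a s t * form (d i - k) (b i) s t = eval (fun j => s * p j + t * v j) (f i)

/-- Uniform lower bound for products of forms. -/
lemma bound (k e : ℕ) : ∃ c : ℝ, 0 < c ∧ ∀ (a : Fin (k + 1) → ℂ) (b : Fin (e + 1) → ℂ),
    ‖a‖ = 1 → c * ‖b‖ ≤ ∑ l ∈ Finset.range (k + e + 1), ‖form k a l 1 * form e b l 1‖ := by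
  let Φ : (Fin (k + 1) → ℂ) × (Fin (e + 1) → ℂ) → ℝ := fun q =>
    ∑ l ∈ Finset.range (k + e + 1), ‖form k q.1 l 1 * form e q.2 l 1‖
  have hcont : Continuous Φ := by
    refine continuous_finsetSum _ fun l _ => ?_
    exact (((form_continuous k l 1).comp continuous_fst).mul
      ((form_continuous e l 1).comp continuous_snd)).norm
  have hK : IsCompact ((Metric.sphere (0 : Fin (k + 1) → ℂ) 1) ×ˢ
      (Metric.sphere (0 : Fin (e + 1) → ℂ) 1)) := (isCompact_sphere _ _).prod (isCompact_sphere _ _)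
  have hne : ((Metric.sphere (0 : Fin (k + 1) → ℂ) 1) ×ˢ
      (Metric.sphere (0 : Fin (e + 1) → ℂ) 1)).Nonempty :=
    (NormedSpace.sphere_nonempty.2 zero_le_one).prod (NormedSpace.sphere_nonempty.2 zero_le_one)
  obtain ⟨q0, hq0, hmin⟩ := hK.exists_isMinOn hne hcont.continuousOn
  have hpos : 0 < Φ q0 := by
    rw [Set.mem_prod, mem_sphere_zero_iff_norm, mem_sphere_zero_iff_norm] at hq0
    by_contra hcon
    have hz : Φ q0 = 0 := le_antisymm (not_lt.1 hcon) (Finset.sum_nonneg fun _ _ => norm_nonneg _)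
    have hz2 := (Finset.sum_eq_zero_iff_of_nonneg (fun _ _ => norm_nonneg _)).1 hz
    have h1 : poly k q0.1 ≠ 0 := poly_ne_zero (by
      intro h; rw [h, norm_zero] at hq0; exact zero_ne_one hq0.1)
    have h2 : poly e q0.2 ≠ 0 := poly_ne_zero (by
      intro h; rw [h, norm_zero] at hq0; exact zero_ne_one hq0.2)
    have h3 : poly k q0.1 * poly e q0.2 = 0 := by
      apply Polynomial.eq_zero_of_natDegree_lt_card_of_eval_eq_zero' _
        ((Finset.range (k + e + 1)).image (fun l : ℕ => (l : ℂ)))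
      · intro z hz
        obtain ⟨l, hl, rfl⟩ := Finset.mem_image.1 hz
        rw [Polynomial.eval_mul, poly_eval, poly_eval]
        exact norm_eq_zero.1 (hz2 l hl)
      · rw [Finset.card_image_of_injective _ Nat.cast_injective, Finset.card_range]
        refine (Polynomial.natDegree_mul_le).trans_lt ?_
        have := poly_natDegree k q0.1
        have := poly_natDegree e q0.2
        omega
    exact (mul_ne_zero h1 h2) h3
  refine ⟨Φ q0, hpos, fun a b ha => ?_⟩
  by_cases hb : b = 0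
  · rw [hb, norm_zero, mul_zero]
    exact Finset.sum_nonneg fun _ _ => norm_nonneg _
  · have hb' : ‖b‖ ≠ 0 := norm_ne_zero_iff.2 hb
    set b1 : Fin (e + 1) → ℂ := ((‖b‖⁻¹ : ℝ) : ℂ) • b with hb1
    have hb1n : ‖b1‖ = 1 := by
      rw [hb1, norm_smul, Complex.norm_real, Real.norm_eq_abs, abs_of_nonneg (by positivity)]
      exact inv_mul_cancel₀ hb'
    have hmem : (a, b1) ∈ ((Metric.sphere (0 : Fin (k + 1) → ℂ) 1) ×ˢ
      (Metric.sphere (0 : Fin (e + 1) → ℂ) 1)) := by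
      rw [Set.mem_prod, mem_sphere_zero_iff_norm, mem_sphere_zero_iff_norm]
      exact ⟨ha, hb1n⟩
    have h1 : Φ q0 ≤ Φ (a, b1) := hmin hmem
    have h2 : Φ (a, b1) * ‖b‖ =
        ∑ l ∈ Finset.range (k + e + 1), ‖form k a l 1 * form e b l 1‖ := by
      show (∑ l ∈ Finset.range (k + e + 1), ‖form k a l 1 * form e b1 l 1‖) * ‖b‖ = _
      rw [Finset.sum_mul]
      refine Finset.sum_congr rfl fun l _ => ?_
      rw [hb1, form_smul, norm_mul, norm_mul, norm_mul, Complex.norm_real, Real.norm_eq_abs,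
        abs_of_nonneg (by positivity : (0 : ℝ) ≤ ‖b‖⁻¹)]
      field_simp
    rw [← h2]
    exact mul_le_mul_of_nonneg_right h1 (norm_nonneg _)

lemma eval_continuous {N : ℕ} (F : MvPolynomial (Fin (N + 1)) ℂ) (s t : ℂ) :
    Continuous (fun q : (Fin (N + 1) → ℂ) × (Fin (N + 1) → ℂ) =>
      eval (fun j => s * q.1 j + t * q.2 j) F) := by
  have h1 : Continuous (fun x : Fin (N + 1) → ℂ => eval x F) := MvPolynomial.continuous_eval F
  exact h1.comp (by fun_prop)

/-- Normalised version of `exists_off`. -/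
lemma good_off {N k m : ℕ} (f : Fin m → MvPolynomial (Fin (N + 1)) ℂ) (d : Fin m → ℕ)
    (hf : ∀ i, (f i).IsHomogeneous (d i)) (hd : ∀ i, k ≤ d i) (hm' : k * m < N + k)
    (p : Fin (N + 1) → ℂ) (j0 : Fin (N + 1)) (hp : ∃ i, eval p (f i) ≠ 0) :
    ∃ v : Fin (N + 1) → ℂ, v j0 = 0 ∧ ‖v‖ = 1 ∧ ∃ a b, ‖a‖ = 1 ∧ Good k d f p v a b := by
  obtain ⟨v, hv0, hv, H, hH, hHk, hdvd⟩ := exists_off f d hf hd hm' p j0 hp
  choose Q hQ using hdvd
  have hvn : ‖v‖ ≠ 0 := norm_ne_zero_iff.2 hv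
  have hQd : ∀ i, (Q i).natDegree ≤ d i - k := by
    intro i
    by_cases hQ0 : Q i = 0
    · simp [hQ0]
    · have h1 := natDegree_dehom (onLine_hom p v (hf i))
      rw [hQ i, hH.natDegree_mul' hQ0, hHk] at h1
      omega
  have hkey : ∀ i (x : Fin 2 → ℂ), eval x (hm k H) * eval x (hm (d i - k) (Q i)) =
      eval (fun j => x 0 * p j + x 1 * v j) (f i) := by
    intro i x
    rw [← map_mul, ← hm_mul (le_of_eq hHk) (hQd i), Nat.add_sub_cancel' (hd i), ← hQ i,
      hm_dehom (onLine_hom p v (hf i)), onLine_eval]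
  -- unnormalised coefficients
  set c : ℂ := ((‖v‖⁻¹ : ℝ) : ℂ) with hc
  have hcn : ‖c‖ = ‖v‖⁻¹ := by
    rw [hc, Complex.norm_real, Real.norm_eq_abs, abs_of_nonneg (by positivity)]
  set a1 : Fin (k + 1) → ℂ := fun j => H.coeff j * c ^ (k - (j : ℕ)) with ha1
  set b1 : ∀ i, Fin (d i - k + 1) → ℂ := fun i j => (Q i).coeff j * c ^ (d i - k - (j : ℕ)) with hb1
  have ha1n : ‖a1‖ ≠ 0 := by
    rw [norm_ne_zero_iff]
    intro h
    have h1 := congrFun h (Fin.last k)
    simp only [ha1, Fin.val_last, Nat.sub_self, pow_zero, mul_one, Pi.zero_apply] at h1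
    rw [← hHk, hH.coeff_natDegree] at h1
    exact one_ne_zero h1
  set e : ℂ := ((‖a1‖⁻¹ : ℝ) : ℂ) with he
  have hen : ‖e‖ = ‖a1‖⁻¹ := by
    rw [he, Complex.norm_real, Real.norm_eq_abs, abs_of_nonneg (by positivity)]
  have he0 : e ≠ 0 := by
    rw [← norm_ne_zero_iff, hen]; exact inv_ne_zero ha1n
  refine ⟨c • v, ?_, ?_, e • a1, fun i => e⁻¹ • b1 i, ?_, ?_⟩
  · simp [hv0]
  · rw [norm_smul, hcn]; exact inv_mul_cancel₀ hvn
  · rw [norm_smul, hen]; exact inv_mul_cancel₀ ha1n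
  · intro i s t
    rw [form_smul, form_smul, ha1, hb1]
    simp only
    rw [form_scale k c (fun j => H.coeff j), form_scale (d i - k) c (fun j => (Q i).coeff j)]
    have h1 := form_of_poly (e := k) (P := H) ![s, t * c]
    have h2 := form_of_poly (e := d i - k) (P := Q i) ![s, t * c]
    simp only [Matrix.cons_val_zero, Matrix.cons_val_one] at h1 h2
    rw [h1, h2]
    have h3 := hkey i ![s, t * c]
    simp only [Matrix.cons_val_zero, Matrix.cons_val_one] at h3
    have h4 : (fun j => s * p j + t * (c • v) j) = fun j => s * p j + t * c * v j := by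
      funext j; simp [mul_assoc]
    rw [h4, ← h3]
    field_simp

/-- A nonzero polynomial does not vanish on a ball. -/
lemma exists_near {N : ℕ} {F : MvPolynomial (Fin (N + 1)) ℂ} (hF : F ≠ 0) (p : Fin (N + 1) → ℂ)
    {r : ℝ} (hr : 0 < r) : ∃ q : Fin (N + 1) → ℂ, ‖q - p‖ ≤ r ∧ eval q F ≠ 0 := by
  by_contra hcon
  push Not at hcon
  obtain ⟨z, hz⟩ : ∃ z, eval z F ≠ 0 := by
    by_contra hcon2
    push Not at hcon2
    exact hF (MvPolynomial.funext (fun z => by simpa using hcon2 z))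
  have hP : ∀ x : ℂ, (dehom (onLine (z - p) p F)).eval x = eval (p + x • (z - p)) F := by
    intro x
    rw [dehom_eval, onLine_eval]
    congr 2
    funext j
    simp [add_comm]
  have hcont : Continuous (fun x : ℂ => (p + x • (z - p)) - p) := by fun_prop
  have hopen : IsOpen {x : ℂ | ‖(p + x • (z - p)) - p‖ < r} :=
    isOpen_lt hcont.norm continuous_const
  have hmem : (0 : ℂ) ∈ {x : ℂ | ‖(p + x • (z - p)) - p‖ < r} := by
    show ‖(p + (0 : ℂ) • (z - p)) - p‖ < r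
    rw [zero_smul, add_zero, sub_self, norm_zero]
    exact hr
  have hinf : {x : ℂ | ‖(p + x • (z - p)) - p‖ < r}.Infinite :=
    infinite_of_mem_nhds 0 (hopen.mem_nhds hmem)
  have hP0 : dehom (onLine (z - p) p F) = 0 := by
    apply Polynomial.eq_zero_of_infinite_isRoot
    refine hinf.mono fun x hx => ?_
    show (dehom (onLine (z - p) p F)).eval x = 0
    rw [hP]
    exact hcon _ (le_of_lt hx)
  apply hz
  have h1 := hP 1
  rw [hP0, Polynomial.eval_zero, one_smul, add_sub_cancel] at h1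
  exact h1.symm

/-- Boundedness of the cofactors. -/
lemma cofactor_bound {N k m : ℕ} (f : Fin m → MvPolynomial (Fin (N + 1)) ℂ) (d : Fin m → ℕ)
    (p : Fin (N + 1) → ℂ) (i : Fin m) : ∃ M : ℝ, ∀ (q v : Fin (N + 1) → ℂ)
      (a : Fin (k + 1) → ℂ) (b : ∀ i, Fin (d i - k + 1) → ℂ),
      ‖q - p‖ ≤ 1 → ‖v‖ = 1 → ‖a‖ = 1 → Good k d f q v a b → ‖b i‖ ≤ M := by
  obtain ⟨c, hc0, hc⟩ := bound k (d i - k)
  have hcont : Continuous (fun w : (Fin (N + 1) → ℂ) × (Fin (N + 1) → ℂ) =>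
      ∑ l ∈ Finset.range (k + (d i - k) + 1), ‖eval (fun j => (l : ℂ) * w.1 j + 1 * w.2 j) (f i)‖) :=
    continuous_finsetSum _ fun l _ => (eval_continuous (f i) (l : ℂ) 1).norm
  have hK : IsCompact ((Metric.closedBall p 1) ×ˢ (Metric.sphere (0 : Fin (N + 1) → ℂ) 1)) :=
    (isCompact_closedBall _ _).prod (isCompact_sphere _ _)
  obtain ⟨M, hM⟩ := hK.exists_bound_of_continuousOn hcont.continuousOn
  refine ⟨M / c, fun q v a b hq hv ha hg => ?_⟩
  rw [le_div_iff₀ hc0, mul_comm]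
  refine (hc a (b i) ha).trans ?_
  have hmem : (q, v) ∈ ((Metric.closedBall p 1) ×ˢ (Metric.sphere (0 : Fin (N + 1) → ℂ) 1)) := by
    rw [Set.mem_prod, mem_sphere_zero_iff_norm, Metric.mem_closedBall, dist_eq_norm]
    exact ⟨hq, hv⟩
  have h1 := hM _ hmem
  refine le_trans (le_of_eq ?_) ((le_abs_self _).trans h1)
  refine Finset.sum_congr rfl fun l _ => ?_
  rw [hg i (l : ℂ) 1]

/-- `Good` is a closed condition. -/
lemma good_closed {N k m : ℕ} (f : Fin m → MvPolynomial (Fin (N + 1)) ℂ) (d : Fin m → ℕ)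
    (q v : ℕ → Fin (N + 1) → ℂ) (a : ℕ → Fin (k + 1) → ℂ) (b : ℕ → ∀ i, Fin (d i - k + 1) → ℂ)
    (hg : ∀ n, Good k d f (q n) (v n) (a n) (b n)) (q' v' : Fin (N + 1) → ℂ)
    (a' : Fin (k + 1) → ℂ) (b' : ∀ i, Fin (d i - k + 1) → ℂ)
    (hq : Filter.Tendsto q Filter.atTop (nhds q')) (hv : Filter.Tendsto v Filter.atTop (nhds v'))
    (ha : Filter.Tendsto a Filter.atTop (nhds a')) (hb : Filter.Tendsto b Filter.atTop (nhds b')) :
    Good k d f q' v' a' b' := by
  intro i s t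
  have hb' : Filter.Tendsto (fun n => b n i) Filter.atTop (nhds (b' i)) :=
    tendsto_pi_nhds.1 hb i
  have e1 := ((form_continuous k s t).tendsto a').comp ha
  have e2 := ((form_continuous (d i - k) s t).tendsto (b' i)).comp hb'
  have h1 := e1.mul e2
  have h2 := ((eval_continuous (f i) s t).tendsto (q', v')).comp (hq.prodMk_nhds hv)
  refine tendsto_nhds_unique h1 (h2.congr fun n => ?_)
  exact (hg n i s t).symm

/-- Compactness. -/
lemma subseq_lemma {N k m : ℕ} (d : Fin m → ℕ) (M : Fin m → ℝ)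
    (v : ℕ → Fin (N + 1) → ℂ) (a : ℕ → Fin (k + 1) → ℂ) (b : ℕ → ∀ i, Fin (d i - k + 1) → ℂ)
    (hv : ∀ n, ‖v n‖ = 1) (ha : ∀ n, ‖a n‖ = 1) (hb : ∀ n i, ‖b n i‖ ≤ M i) :
    ∃ v' a' b', ∃ φ : ℕ → ℕ, StrictMono φ ∧ ‖v'‖ = 1 ∧ ‖a'‖ = 1 ∧
      Filter.Tendsto (fun n => v (φ n)) Filter.atTop (nhds v') ∧
      Filter.Tendsto (fun n => a (φ n)) Filter.atTop (nhds a') ∧
      Filter.Tendsto (fun n => b (φ n)) Filter.atTop (nhds b') := by
  have hK1 : IsCompact (Metric.sphere (0 : Fin (N + 1) → ℂ) 1) := isCompact_sphere _ _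
  have hK2 : IsCompact (Metric.sphere (0 : Fin (k + 1) → ℂ) 1) := isCompact_sphere _ _
  have hK3 : IsCompact (Set.univ.pi fun i => Metric.closedBall (0 : Fin (d i - k + 1) → ℂ) (M i)) :=
    isCompact_univ_pi fun i => isCompact_closedBall _ _
  obtain ⟨v', hv', φ1, hφ1, h1⟩ := hK1.tendsto_subseq (x := v)
    (fun n => mem_sphere_zero_iff_norm.2 (hv n))
  obtain ⟨a', ha', φ2, hφ2, h2⟩ := hK2.tendsto_subseq (x := fun n => a (φ1 n))
    (fun n => mem_sphere_zero_iff_norm.2 (ha _))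
  obtain ⟨b', hb', φ3, hφ3, h3⟩ := hK3.tendsto_subseq (x := fun n => b (φ1 (φ2 n)))
    (fun n i _ => mem_closedBall_zero_iff.2 (hb _ i))
  refine ⟨v', a', b', fun n => φ1 (φ2 (φ3 n)), hφ1.comp (hφ2.comp hφ3),
    mem_sphere_zero_iff_norm.1 hv', mem_sphere_zero_iff_norm.1 ha', ?_, ?_, h3⟩
  · exact h1.comp ((hφ2.comp hφ3).tendsto_atTop)
  · exact h2.comp hφ3.tendsto_atTop

/-- The closure argument. -/
theorem good_all {N k m : ℕ} (f : Fin m → MvPolynomial (Fin (N + 1)) ℂ) (d : Fin m → ℕ)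
    (hf : ∀ i, (f i).IsHomogeneous (d i)) (hd : ∀ i, k ≤ d i) (hm' : k * m < N + k)
    (hne : ∃ i, f i ≠ 0) (p : Fin (N + 1) → ℂ) (j0 : Fin (N + 1)) :
    ∃ v : Fin (N + 1) → ℂ, v j0 = 0 ∧ ‖v‖ = 1 ∧ ∃ a b, ‖a‖ = 1 ∧ Good k d f p v a b := by
  obtain ⟨i0, hi0⟩ := hne
  have hseq : ∀ n : ℕ, ∃ q : Fin (N + 1) → ℂ, ‖q - p‖ ≤ 1 / ((n : ℝ) + 1) ∧
      eval q (f i0) ≠ 0 := fun n => exists_near hi0 p (by positivity)
  choose q hq hqi using hseq
  have hq' : Filter.Tendsto q Filter.atTop (nhds p) := by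
    rw [tendsto_iff_norm_sub_tendsto_zero]
    refine squeeze_zero (fun n => norm_nonneg _) hq ?_
    exact tendsto_one_div_add_atTop_nhds_zero_nat
  have hq1 : ∀ n, ‖q n - p‖ ≤ 1 := by
    intro n
    refine (hq n).trans ?_
    rw [div_le_one (by positivity)]
    have : (0 : ℝ) ≤ n := Nat.cast_nonneg n
    linarith
  have hoff := fun n => good_off f d hf hd hm' (q n) j0 ⟨i0, hqi n⟩
  choose v hv0 hv1 a b ha hg using hoff
  choose M hM using fun i : Fin m => cofactor_bound (k := k) f d p i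
  obtain ⟨v', a', b', φ, hφ, hv', ha', h1, h2, h3⟩ := subseq_lemma d M v a b hv1 ha
    (fun n i => hM i (q n) (v n) (a n) (b n) (hq1 n) (hv1 n) (ha n) (hg n))
  refine ⟨v', ?_, hv', a', b', ha', ?_⟩
  · have h4 : Filter.Tendsto (fun n => v (φ n) j0) Filter.atTop (nhds (v' j0)) :=
      tendsto_pi_nhds.1 h1 j0
    have h5 : (fun n => v (φ n) j0) = fun _ => (0 : ℂ) := by funext n; exact hv0 _
    rw [h5] at h4
    exact tendsto_nhds_unique tendsto_const_nhds h4 |>.symm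
  · exact good_closed f d (fun n => q (φ n)) (fun n => v (φ n)) (fun n => a (φ n))
      (fun n => b (φ n)) (fun n => hg _) p v' a' b' (hq'.comp hφ.tendsto_atTop) h1 h2 h3

end Pool.Agent.SecFill
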