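import Pool.Agent.SecFill.Basic
import Pool.Agent.PythTwo.CommonZero

/-!
# Multisecant lines through a point off the variety
-/

set_option autoImplicit false

open MvPolynomial

namespace Pool.Agent.SecFill

section

variable {N k m : ℕ} (p : Fin (N + 1) → ℂ) (j0 : Fin (N + 1))

/-- The unknowns: the coordinates of the direction other than the `j0`-th one, and the non-leading
coefficients of the monic polynomial of degree `k`. -/
abbrev Unk (N k : ℕ) (j0 : Fin (N + 1)) : Type := {j : Fin (N + 1) // j ≠ j0} ⊕ Fin k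

/-- The generic direction. -/
noncomputable def gv (j : Fin (N + 1)) : MvPolynomial (Unk N k j0) ℂ :=
  if h : j ≠ j0 then X (Sum.inl ⟨j, h⟩) else 0

/-- The generic restriction. -/
noncomputable def gP (f : MvPolynomial (Fin (N + 1)) ℂ) :
    Polynomial (MvPolynomial (Unk N k j0) ℂ) :=
  aeval (fun j => Polynomial.C (C (p j)) * Polynomial.X + Polynomial.C (gv (k := k) j0 j)) f

/-- The generic monic polynomial. -/
noncomputable def gH : Polynomial (MvPolynomial (Unk N k j0) ℂ) :=
  Polynomial.X ^ k + ∑ j : Fin k, Polynomial.C (X (Sum.inr j)) * Polynomial.X ^ (j : ℕ)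

/-- The direction belonging to a point. -/
def dir (x : Unk N k j0 → ℂ) (j : Fin (N + 1)) : ℂ :=
  if h : j ≠ j0 then x (Sum.inl ⟨j, h⟩) else 0

/-- The monic polynomial belonging to a point. -/
noncomputable def pol (x : Unk N k j0 → ℂ) : Polynomial ℂ :=
  Polynomial.X ^ k + ∑ j : Fin k, Polynomial.C (x (Sum.inr j)) * Polynomial.X ^ (j : ℕ)

lemma degree_tail {R : Type} [CommRing R] (c : Fin k → R) :
    (∑ j : Fin k, Polynomial.C (c j) * Polynomial.X ^ (j : ℕ)).degree < (k : WithBot ℕ) := by
  have h : ∀ s : Finset (Fin k), (∑ j ∈ s, Polynomial.C (c j) * Polynomial.X ^ (j : ℕ)).degree <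
      (k : WithBot ℕ) := by
    classical
    intro s
    induction s using Finset.induction_on with
    | empty =>
      rw [Finset.sum_empty, Polynomial.degree_zero]
      exact WithBot.bot_lt_coe k
    | insert a s ha ih =>
      rw [Finset.sum_insert ha]
      refine (Polynomial.degree_add_le _ _).trans_lt (max_lt ?_ ih)
      refine (Polynomial.degree_C_mul_X_pow_le _ _).trans_lt ?_
      exact_mod_cast a.2
  exact h _

lemma gH_monic : (gH (N := N) (k := k) j0).Monic := Polynomial.monic_X_pow_add (degree_tail _)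

lemma pol_monic (x : Unk N k j0 → ℂ) : (pol j0 x).Monic := Polynomial.monic_X_pow_add (degree_tail _)

lemma pol_natDegree (x : Unk N k j0 → ℂ) : (pol j0 x).natDegree = k := by
  apply Polynomial.natDegree_eq_of_degree_eq_some
  rw [pol, Polynomial.degree_add_eq_left_of_degree_lt]
  · simp
  · simpa using degree_tail (fun j => x (Sum.inr j))

lemma pol_coeff (x : Unk N k j0 → ℂ) (j : Fin k) : (pol j0 x).coeff j = x (Sum.inr j) := by
  classical
  rw [pol, Polynomial.coeff_add, Polynomial.coeff_X_pow, if_neg (ne_of_lt j.2), zero_add,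
    Polynomial.finsetSum_coeff]
  simp only [Polynomial.coeff_C_mul, Polynomial.coeff_X_pow]
  rw [Finset.sum_eq_single j]
  · simp
  · intro b _ hb
    rw [if_neg, mul_zero]
    intro h
    exact hb (Fin.ext h.symm)
  · simp

lemma map_gH (x : Unk N k j0 → ℂ) : (gH j0).map (eval x) = pol j0 x := by
  simp [gH, pol, Polynomial.map_sum]

lemma map_gP (x : Unk N k j0 → ℂ) (f : MvPolynomial (Fin (N + 1)) ℂ) :
    (gP (k := k) p j0 f).map (eval x) = dehom (onLine p (dir j0 x) f) := by
  rw [dehom_onLine]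
  have h : ((Polynomial.mapAlgHom (aeval x : MvPolynomial (Unk N k j0) ℂ →ₐ[ℂ] ℂ)).comp
      (aeval (fun j => Polynomial.C (C (p j)) * Polynomial.X +
        Polynomial.C (gv (k := k) j0 j)) :
        MvPolynomial (Fin (N + 1)) ℂ →ₐ[ℂ] Polynomial (MvPolynomial (Unk N k j0) ℂ))) =
      (aeval (fun j => Polynomial.C (p j) * Polynomial.X + Polynomial.C (dir j0 x j)) :
        MvPolynomial (Fin (N + 1)) ℂ →ₐ[ℂ] Polynomial ℂ) := by
    apply MvPolynomial.algHom_ext
    intro j
    simp only [AlgHom.comp_apply, aeval_X, Polynomial.coe_mapAlgHom, Polynomial.map_add,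
      Polynomial.map_mul, Polynomial.map_C, Polynomial.map_X]
    congr 2
    · congr 1
      simp
    · simp only [gv, dir, RingHom.coe_coe]
      split_ifs with hj
      · simp
      · simp
  have h2 := DFunLike.congr_fun h f
  simpa [AlgHom.comp_apply, gP, coe_aeval_eq_eval] using h2

end

/-- **Multisecant lines through a point off the variety.** -/
theorem exists_off {N k m : ℕ} (f : Fin m → MvPolynomial (Fin (N + 1)) ℂ) (d : Fin m → ℕ)
    (hf : ∀ i, (f i).IsHomogeneous (d i)) (hd : ∀ i, k ≤ d i) (hm' : k * m < N + k)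
    (p : Fin (N + 1) → ℂ) (j0 : Fin (N + 1)) (hp : ∃ i, eval p (f i) ≠ 0) :
    ∃ v : Fin (N + 1) → ℂ, v j0 = 0 ∧ v ≠ 0 ∧ ∃ H : Polynomial ℂ,
      H.Monic ∧ H.natDegree = k ∧ ∀ i, H ∣ dehom (onLine p v (f i)) := by
  classical
  let F : Fin m × Fin k → MvPolynomial (Unk N k j0) ℂ := fun il =>
    (gP p j0 (f il.1) %ₘ gH j0).coeff il.2
  have hFe : ∀ (x : Unk N k j0 → ℂ) (i : Fin m) (l : Fin k), eval x (F (i, l)) =
      (dehom (onLine p (dir j0 x) (f i)) %ₘ pol j0 x).coeff l := by
    intro x i l
    rw [← map_gP, ← map_gH, ← Polynomial.map_modByMonic _ (gH_monic j0), Polynomial.coeff_map]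
  have hdir0 : dir (k := k) j0 (0 : Unk N k j0 → ℂ) = 0 := by
    funext j; simp [dir]
  have hline0 : ∀ i, dehom (onLine p 0 (f i)) =
      Polynomial.C (eval p (f i)) * Polynomial.X ^ (d i) := by
    intro i
    apply Polynomial.funext
    intro s
    rw [dehom_eval, onLine_eval, Polynomial.eval_mul, Polynomial.eval_C, Polynomial.eval_pow,
      Polynomial.eval_X]
    have := eval_smul_hom (hf i) s p
    simp only [Matrix.cons_val_zero, Matrix.cons_val_one, Pi.zero_apply, mul_zero, add_zero]
    rw [this]; ring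
  have hpol0 : pol (k := k) j0 (0 : Unk N k j0 → ℂ) = Polynomial.X ^ k := by
    simp [pol]
  have hcard : Fintype.card (Fin m × Fin k) < Fintype.card (Unk N k j0) := by
    rw [Fintype.card_prod, Fintype.card_fin, Fintype.card_fin, Fintype.card_sum, Fintype.card_fin]
    have : Fintype.card {j : Fin (N + 1) // j ≠ j0} = N := by
      rw [Fintype.card_subtype_compl]
      simp
    rw [this]
    calc m * k = k * m := mul_comm _ _
      _ < _ := hm'
  have hF0 : ∀ s, eval 0 (F s) = 0 := by
    rintro ⟨i, l⟩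
    rw [hFe, hdir0, hline0, hpol0]
    have : (Polynomial.C (eval p (f i)) * Polynomial.X ^ (d i)) %ₘ
        (Polynomial.X ^ k : Polynomial ℂ) = 0 := by
      rw [Polynomial.modByMonic_eq_zero_iff_dvd (Polynomial.monic_X_pow k)]
      exact Dvd.dvd.mul_left (pow_dvd_pow _ (hd i)) _
    rw [this, Polynomial.coeff_zero]
  obtain ⟨x, hx0, hx⟩ := Pool.Agent.PythTwo.exists_common_zero F hcard hF0
  have hdvd : ∀ i, pol j0 x ∣ dehom (onLine p (dir j0 x) (f i)) := by
    intro i
    rw [← Polynomial.modByMonic_eq_zero_iff_dvd (pol_monic j0 x)]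
    ext l
    rw [Polynomial.coeff_zero]
    by_cases hl : l < k
    · rw [← hFe x i ⟨l, hl⟩]
      exact hx _
    · apply Polynomial.coeff_eq_zero_of_degree_lt
      refine (Polynomial.degree_modByMonic_lt _ (pol_monic j0 x)).trans_le ?_
      rw [Polynomial.degree_eq_natDegree (pol_monic j0 x).ne_zero, pol_natDegree]
      exact_mod_cast (not_lt.1 hl)
  refine ⟨dir j0 x, by simp [dir], ?_, pol j0 x, pol_monic j0 x, pol_natDegree j0 x, hdvd⟩
  intro hv
  obtain ⟨i, hi⟩ := hp
  have h1 := hdvd i
  rw [hv, hline0] at h1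
  have h2 : pol j0 x ∣ Polynomial.X ^ (d i) := by
    have hu : IsUnit (Polynomial.C (eval p (f i))) := by
      rw [Polynomial.isUnit_C]; exact isUnit_iff_ne_zero.2 hi
    exact (hu.dvd_mul_left).1 h1
  obtain ⟨e, _, he⟩ := (dvd_prime_pow Polynomial.prime_X _).1 h2
  have h3 : pol j0 x = Polynomial.X ^ e :=
    Polynomial.eq_of_monic_of_associated (pol_monic j0 x) (Polynomial.monic_X_pow e) he
  have h4 : e = k := by
    have := pol_natDegree j0 x
    rw [h3, Polynomial.natDegree_X_pow] at this
    exact this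
  apply hx0
  funext u
  rcases u with ⟨j, hj⟩ | l
  · have h5 := congrFun hv j
    simpa [dir, hj] using h5
  · have h5 := pol_coeff j0 x l
    rw [h3, h4, Polynomial.coeff_X_pow, if_neg (ne_of_lt l.2)] at h5
    simpa using h5.symm

end Pool.Agent.SecFill
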